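import Pool.Agent.TH144.NV.Basic
import Pool.Agent.TH144.NV.Avg

/-!
# Sections of the generating sheaf on quotients of weighted projective varieties by abelian groups

`R = k[x₁, …, x_N]/(f₁, …, f_c)` with weights `w i` and degrees `d j`, a finite abelian group `G`
acting diagonally, and `S = ⨁ₘ (R_{hm})^G`. If `S` is a section ring, every fixed line of `g ∈ G` in
the cone over `Proj R` has eigenvalue an `h`-th root of unity. A count of fixed coordinates,
averaged over `G` and the roots of unity against `1 - Re μ^h`, gives many variables with `w i ∣ h`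
and `xᵢ ^ (h / w i)` invariant.
-/

set_option autoImplicit false

namespace Pool.Agent.Results.MP_954e53_ag.AbelianQuotients

open MvPolynomial Finset Pool.Agent.TH144.NV

/-- A graded ring `k[x]/(f)` with positive weights and degrees, and a diagonal action of `G` by
characters `α i` on the variables for which the equations are semi-invariant. -/
structure Datum (k : Type) [Field k] (G : Type) [CommGroup G] (N c : ℕ) where
  w : Fin N → ℕ
  w_pos : ∀ i, 0 < w i
  d : Fin c → ℕ
  d_pos : ∀ j, 0 < d j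
  f : Fin c → MvPolynomial (Fin N) k
  homogeneous : ∀ j, IsWeightedHomogeneous w (f j) (d j)
  α : Fin N → G →* kˣ
  χ : Fin c → G →* kˣ
  semi : ∀ g j, act (fun i => (α i g : k)) (f j) = C (χ j g : k) * f j

variable {k : Type} [Field k] {G : Type} [CommGroup G] {N c : ℕ}

namespace Datum

variable (D : Datum k G N c)

/-- the ideal of the equations -/
noncomputable def I : Ideal (MvPolynomial (Fin N) k) := Ideal.span (Set.range D.f)

/-- the cone over `Proj R` -/
def Cone : Set (Fin N → k) := {p | ∀ j, eval p (D.f j) = 0}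

/-- the automorphism `xᵢ ↦ α i g • xᵢ` of the polynomial ring -/
noncomputable def σ (g : G) : MvPolynomial (Fin N) k →ₐ[k] MvPolynomial (Fin N) k :=
  act fun i => (D.α i g : k)

/-- the class of `a` in `R` is a `G`-invariant form of degree `n` -/
def Inv (n : ℕ) (a : MvPolynomial (Fin N) k) : Prop :=
  IsWeightedHomogeneous D.w a n ∧ ∀ g, Ideal.Quotient.mk D.I (D.σ g a) = Ideal.Quotient.mk D.I a

/-- At every point of `Proj R` invariant forms of some consecutive degrees `hm`, `h(m+1)` do not
vanish. This holds if `⨁ₘ (R_{hm})^G` is the section ring of an ample invertible sheaf. -/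
def SectionRing (h : ℕ) : Prop :=
  ∀ p ∈ D.Cone, p ≠ 0 → ∃ (m : ℕ) (a b : MvPolynomial (Fin N) k),
    D.Inv (h * m) a ∧ D.Inv (h * (m + 1)) b ∧ eval p a ≠ 0 ∧ eval p b ≠ 0

theorem eval_mem {p : Fin N → k} (hp : p ∈ D.Cone) {a : MvPolynomial (Fin N) k} (ha : a ∈ D.I) :
    eval p a = 0 := by
  have h1 : D.I ≤ RingHom.ker (eval p) := by
    rw [I, Ideal.span_le]
    rintro _ ⟨j, rfl⟩
    exact (RingHom.mem_ker).2 (hp j)
  exact (RingHom.mem_ker).1 (h1 ha)

theorem eval_inv {p : Fin N → k} (hp : p ∈ D.Cone) {n : ℕ} {a : MvPolynomial (Fin N) k}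
    (ha : D.Inv n a) (g : G) : eval (fun i => (D.α i g : k) * p i) a = eval p a := by
  rw [← eval_act]
  have h1 := ha.2 g
  rw [Ideal.Quotient.eq] at h1
  have h2 := D.eval_mem hp h1
  rw [map_sub, sub_eq_zero] at h2
  exact h2

/-- eigenvalues of fixed lines are `h`-th roots of unity -/
theorem pow_eq_one {h : ℕ} (hS : D.SectionRing h) {p : Fin N → k} (hp : p ∈ D.Cone) (hp0 : p ≠ 0)
    (g : G) (μ : kˣ) (hfix : ∀ i, (D.α i g : k) * p i = (μ : k) ^ D.w i * p i) : μ ^ h = 1 := by
  obtain ⟨m, a, b, ha, hb, ha0, hb0⟩ := hS p hp hp0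
  have key : ∀ {n : ℕ} {a : MvPolynomial (Fin N) k}, D.Inv n a → eval p a ≠ 0 →
      (μ : k) ^ n = 1 := by
    intro n a ha ha0
    have h1 := D.eval_inv hp ha g
    rw [show (fun i => (D.α i g : k) * p i) = fun i => (μ : k) ^ D.w i * p i from funext hfix,
      eval_wscale ha.1] at h1
    exact mul_right_cancel₀ ha0 (by rw [h1, one_mul])
  have h1 := key ha ha0
  have h2 := key hb hb0
  rw [mul_add, pow_add, h1, one_mul, mul_one] at h2
  ext
  simpa using h2

end Datum

theorem result [IsAlgClosed k] [CharZero k] [Finite G] (D : Datum k G N c) {h : ℕ} (hh : 0 < h)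
    -- no variable vanishes on the cone
    (hfull : ∀ i, ∃ p ∈ D.Cone, p i ≠ 0)
    -- the ring of the `(R_{hm})^G` is a section ring
    (hS : D.SectionRing h) :
    ∃ T : Finset (Fin N), ∑ i, D.w i ≤ ∑ j, D.d j + ∑ i ∈ T, D.w i ∧
      ∀ i ∈ T, D.w i ∣ h ∧ D.Inv h (X i ^ (h / D.w i)) ∧
        ¬ IsNilpotent (Ideal.Quotient.mk D.I (X i ^ (h / D.w i))) := by
  classical
  have hcount : ∀ (g : G) (μ : kˣ), μ ^ h ≠ 1 →
      (univ.filter fun i => D.α i g = μ ^ D.w i).card
        ≤ (univ.filter fun j => D.χ j g = μ ^ D.d j).card := by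
    intro g μ hμ
    have h1 := count_le D.w D.d D.d_pos D.f D.homogeneous (fun i => (D.α i g : k))
      (fun j => (D.χ j g : k)) (fun j => D.semi g j) (μ : k) (by
        intro p hfix hp
        by_contra hp0
        exact hμ (D.pow_eq_one hS hp hp0 g μ hfix))
    have e1 : ∀ i, ((D.α i g : k) = (μ : k) ^ D.w i) ↔ D.α i g = μ ^ D.w i := by
      intro i
      rw [← Units.val_pow_eq_pow_val, Units.val_inj]
    have e2 : ∀ j, ((D.χ j g : k) = (μ : k) ^ D.d j) ↔ D.χ j g = μ ^ D.d j := by
      intro j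
      rw [← Units.val_pow_eq_pow_val, Units.val_inj]
    simp only [e1, e2] at h1
    convert h1
  have hmain := main_ineq D.w D.w_pos D.d D.d_pos D.α D.χ h (by
    intro g μ hμ
    convert hcount g μ hμ)
  refine ⟨univ.filter fun i => Good h (D.w i) (D.α i), ?_, ?_⟩
  · have h1 := Finset.sum_filter_add_sum_filter_not (univ : Finset (Fin N))
      (fun i => Good h (D.w i) (D.α i)) D.w
    have h2 : ∑ j ∈ univ.filter (fun j => ¬ Good h (D.d j) (D.χ j)), D.d j ≤ ∑ j, D.d j :=
      Finset.sum_le_sum_of_subset (Finset.filter_subset _ _)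
    have h3 : ∑ i ∈ univ.filter (fun i => ¬ Good h (D.w i) (D.α i)), D.w i
        ≤ ∑ j ∈ univ.filter (fun j => ¬ Good h (D.d j) (D.χ j)), D.d j := by
      convert hmain
    omega
  · intro i hi
    obtain ⟨hdvd, hα⟩ := ((Finset.mem_filter.1 hi).2).dvd (D.w_pos i)
    have hne : h / D.w i ≠ 0 := by
      intro h0
      have := Nat.div_mul_cancel hdvd
      rw [h0, zero_mul] at this
      omega
    refine ⟨hdvd, ⟨?_, ?_⟩, ?_⟩
    · have h1 := (isWeightedHomogeneous_X k D.w i).pow (h / D.w i)
      rwa [smul_eq_mul, Nat.div_mul_cancel hdvd] at h1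
    · intro g
      have h1 : D.σ g (X i ^ (h / D.w i)) = X i ^ (h / D.w i) := by
        rw [map_pow]
        show (act (fun i => (D.α i g : k)) (X i)) ^ _ = _
        unfold act
        rw [aeval_X, mul_pow, ← C_pow, ← Units.val_pow_eq_pow_val, hα g, Units.val_one, C_1,
          one_mul]
      rw [h1]
    · rintro ⟨n, hn⟩
      obtain ⟨p, hp, hpi⟩ := hfull i
      rw [← map_pow, Ideal.Quotient.eq_zero_iff_mem] at hn
      have := D.eval_mem hp hn
      rw [map_pow, map_pow, eval_X] at this
      exact hpi (eq_zero_of_pow_eq_zero (eq_zero_of_pow_eq_zero this))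

end Pool.Agent.Results.MP_954e53_ag.AbelianQuotients
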